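import Pool.Agent.Helper15.UL.GoalsE

/-!
# MP_57a173_lc, packet OPV: the value of `r ∈ open set coded by q`.
-/

noncomputable section

namespace UL.PkOPV

open Pool.Agent.Helper97.Ku NU MeasureTheory UL

theorem thm : UL.G_DCC → UL.G_OPV := by
  intro hD I _ _ hHF ω hω q r Q x hQ hx hq hr
  obtain ⟨hSup, -, hBin⟩ := hD I hHF ω hω
  -- the set of points with `σ i = x z i`
  have hmeas : ∀ (σ : Str) (i : Fin σ.length), MeasurableSet {z | σ.get i = x z i} := by
    intro σ i
    by_cases h : σ.get i = true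
    · have e : {z | σ.get i = x z i} = {z | x z i = true} := by
        ext z
        simp only [Set.mem_setOf_eq, h]
        exact eq_comm
      rw [e]; exact hx i
    · have h' : σ.get i = false := by simpa using h
      have e : {z | σ.get i = x z i} = {z | x z i = true}ᶜ := by
        ext z
        simp only [Set.mem_setOf_eq, h', Set.mem_compl_iff]
        cases x z i <;> simp
      rw [e]; exact (hx i).compl
  have hdc : ∀ (σ : Str) (i : Fin σ.length),
      Dc ω (if σ.get i = true then r i else (r i)ᶜ) {z | σ.get i = x z i} := by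
    intro σ i
    by_cases h : σ.get i = true
    · rw [if_pos h]
      refine (hr i).congr fun z => ?_
      simp only [Set.mem_setOf_eq, h]
      exact eq_comm
    · rw [if_neg h]
      have h' : σ.get i = false := by simpa using h
      refine (hr i).compl.congr fun z => ?_
      simp only [Set.mem_setOf_eq, h', Set.mem_compl_iff]
      cases x z i <;> simp
  have hmB : ∀ σ : Str, MeasurableSet {z | Pre σ (x z)} := by
    intro σ
    have e : {z | Pre σ (x z)} = ⋂ i : Fin σ.length, {z | σ.get i = x z i} := by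
      ext z
      simp only [Set.mem_setOf_eq, Set.mem_iInter, Pre]
      exact ⟨fun h i => h i.1 i.2, fun h i hi => h ⟨i, hi⟩⟩
    rw [e]
    exact MeasurableSet.iInter fun i => hmeas σ i
  have hB : ∀ σ : Str, Dc ω (basV r σ) {z | Pre σ (x z)} := by
    intro σ
    have h := (hSup (Fin σ.length) (fun i => if σ.get i = true then r i else (r i)ᶜ)
      (fun i => {z | σ.get i = x z i}) (hmeas σ) (hdc σ)).2
    refine h.congr fun z => ?_
    simp only [Set.mem_setOf_eq, Pre]
    exact ⟨fun h i hi => h ⟨i, hi⟩, fun h i => h i.1 i.2⟩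
  have hQB : ∀ σ : Str, Dc ω (q σ ⊓ basV r σ) {z | z ∈ Q σ ∧ Pre σ (x z)} := fun σ =>
    (hBin (q σ) (basV r σ) (Q σ) {z | Pre σ (x z)} (hQ σ) (hmB σ) (hq σ) (hB σ)).1
  have hmQB : ∀ σ : Str, MeasurableSet {z | z ∈ Q σ ∧ Pre σ (x z)} := fun σ =>
    (hQ σ).inter (hmB σ)
  exact (hSup Str (fun σ => q σ ⊓ basV r σ) (fun σ => {z | z ∈ Q σ ∧ Pre σ (x z)}) hmQB hQB).1

end UL.PkOPV
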